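import Pool.Agent.Helper21.W4.St2

/-!
# Wilf in embedding dimension four: the losses in types 0 and 1

The three regions where a cap is active, thickened below the cap, and the spine are pairwise
disjoint sets of interior points.
-/

set_option autoImplicit false

namespace Pool.Agent.Helper29.W4

open Pool.Agent.Helper21.W4 Finset

/-- the interior points -/
def QQ (B : ℕ) (h1 : ℕ → ℕ → ℕ) : Finset (ℕ × ℕ × ℕ) :=
  (range B ×ˢ range B ×ˢ range B).filter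
    (fun x => 1 ≤ x.1 ∧ 1 ≤ x.2.1 ∧ 1 ≤ x.2.2 ∧ x.1 < h1 x.2.1 x.2.2)

theorem mem_QQ {B : ℕ} {h1 h2 h3 : ℕ → ℕ → ℕ} (pp : PP B h1 h2 h3) (p q r : ℕ) :
    (p, q, r) ∈ QQ B h1 ↔ 1 ≤ p ∧ 1 ≤ q ∧ 1 ≤ r ∧ p < h1 q r := by
  unfold QQ
  rw [mem_filter]
  constructor
  · intro h
    exact h.2
  · intro h
    refine ⟨?_, h⟩
    have hb := pp.bd p q r h.2.2.2
    simp only [mem_product, mem_range]
    omega

theorem card_QQ {B : ℕ} {h1 h2 h3 : ℕ → ℕ → ℕ} (pp : PP B h1 h2 h3) :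
    (QQ B h1).card ≤ bk B h3 := by
  have e : bk B h3 =
      ((range B ×ˢ range B).sigma (fun x => range (h3 (x.1 + 1) (x.2 + 1) - 1))).card := by
    rw [card_sigma, sum_product]
    simp [bk]
  rw [e]
  refine card_le_card_of_injOn
    (fun x : ℕ × ℕ × ℕ => (⟨(x.1 - 1, x.2.1 - 1), x.2.2 - 1⟩ : (_ : ℕ × ℕ) × ℕ)) ?_ ?_
  · rintro ⟨p, q, r⟩ hx
    have hx' := (mem_QQ pp p q r).1 (mem_coe.1 hx)
    obtain ⟨hp, hq, hr, hh⟩ := hx'
    have hb := pp.bd p q r hh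
    have h3' := (pp.e13 p q r).1 hh
    have hp1 : p - 1 + 1 = p := by omega
    have hq1 : q - 1 + 1 = q := by omega
    simp only [coe_sigma, Set.mem_sigma_iff, mem_coe, mem_product, mem_range, hp1, hq1]
    omega
  · rintro ⟨p, q, r⟩ hx ⟨p', q', r'⟩ hx' he
    have hx1 := (mem_QQ pp p q r).1 (mem_coe.1 hx)
    have hx2 := (mem_QQ pp p' q' r').1 (mem_coe.1 hx')
    simp only [Sigma.mk.injEq, Prod.mk.injEq, heq_eq_eq] at he
    simp only [Prod.mk.injEq]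
    omega

theorem card_T {M : Finset (ℕ × ℕ)} {n : ℕ} {T : Finset (ℕ × ℕ × ℕ)}
    (f : (ℕ × ℕ) × ℕ → ℕ × ℕ × ℕ) (hf : Function.Injective f)
    (h : ∀ x ∈ M, ∀ r, 1 ≤ r → r < n → f (x, r) ∈ T) : M.card * (n - 1) ≤ T.card := by
  have hc : (M ×ˢ Ico 1 n).card = M.card * (n - 1) := by
    rw [card_product, Nat.card_Ico]
  rw [← hc]
  refine card_le_card_of_injOn f ?_ hf.injOn
  rintro ⟨x, r⟩ hx
  rw [mem_coe, mem_product, mem_Ico] at hx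
  exact mem_coe.2 (h x hx.1 r hx.2.1 hx.2.2)

theorem loss_le {B : ℕ} {h : ℕ → ℕ → ℕ} {ci cj ck t : ℕ} (hk : 2 ≤ ck)
    (ht : rr B h ci cj ck * (ck - 1) ≤ t) : loss B h ci cj ck ≤ 2 * t := by
  unfold loss
  rw [if_neg (by omega)]
  obtain ⟨m, rfl⟩ : ∃ m, ck = m + 2 := ⟨ck - 2, by omega⟩
  have e : m + 2 - 1 = m + 1 := by omega
  rw [e] at ht
  have : (m + 2) * rr B h ci cj (m + 2) ≤ 2 * (rr B h ci cj (m + 2) * (m + 1)) := by
    nlinarith [Nat.zero_le (m * rr B h ci cj (m + 2))]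
  omega

/-- the thickened region -/
def TT (B : ℕ) (h : ℕ → ℕ → ℕ) (ci cj ck : ℕ) (f : (ℕ × ℕ) × ℕ → ℕ × ℕ × ℕ) :
    Finset (ℕ × ℕ × ℕ) :=
  (((range B ×ˢ range B).filter
    (fun x => inR h ci cj ck x.1 x.2 ∧ ¬ inR h ci cj ck (x.1 + 1) x.2 ∧
      ¬ inR h ci cj ck x.1 (x.2 + 1))) ×ˢ Ico 1 ck).image f

theorem card_TT {B : ℕ} {h : ℕ → ℕ → ℕ} {ci cj ck : ℕ} {f : (ℕ × ℕ) × ℕ → ℕ × ℕ × ℕ}
    (hf : Function.Injective f) : rr B h ci cj ck * (ck - 1) = (TT B h ci cj ck f).card := by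
  unfold TT rr
  rw [card_image_of_injective _ hf, card_product, Nat.card_Ico]

theorem mem_TT {B : ℕ} {h : ℕ → ℕ → ℕ} {ci cj ck : ℕ} {f : (ℕ × ℕ) × ℕ → ℕ × ℕ × ℕ}
    {x : ℕ × ℕ × ℕ} (hx : x ∈ TT B h ci cj ck f) :
    ∃ a b c, inR h ci cj ck a b ∧ 1 ≤ c ∧ c < ck ∧ f ((a, b), c) = x := by
  unfold TT at hx
  rw [mem_image] at hx
  obtain ⟨⟨⟨a, b⟩, c⟩, hm, he⟩ := hx
  rw [mem_product, mem_Ico, mem_filter] at hm
  exact ⟨a, b, c, hm.1.2.1, hm.2.1, hm.2.2, he⟩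

theorem cap_eq {h : ℕ → ℕ → ℕ} {ci cj ck a b : ℕ} (hc : Cap h ci cj ck)
    (hr : inR h ci cj ck a b) : h a b = ck := by
  obtain ⟨h1, h2, h3, h4, h5⟩ := hr
  have := (hc a b h3).1 ⟨h1, h2⟩
  omega

theorem hLa : StLa := by
  intro _ hCap B h1 h2 h3 c1 c2 c3 hC h11 hc1 hc2 hc3
  obtain ⟨cap3, cap2, cap1⟩ := hCap B h1 h2 h3 c1 c2 c3 hC
  have pp := hC.pp
  set T1 := TT B h1 c2 c3 c1 (fun x => (x.2, x.1.1, x.1.2)) with hT1
  set T2 := TT B h2 c1 c3 c2 (fun x => (x.1.1, x.2, x.1.2)) with hT2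
  set T3 := TT B h3 c1 c2 c3 (fun x => (x.1.1, x.1.2, x.2)) with hT3
  have L1 : loss B h1 c2 c3 c1 ≤ 2 * T1.card := by
    refine loss_le hc1 (le_of_eq (card_TT ?_))
    rintro ⟨⟨a, b⟩, c⟩ ⟨⟨a', b'⟩, c'⟩ he
    simp only [Prod.mk.injEq] at he ⊢
    tauto
  have L2 : loss B h2 c1 c3 c2 ≤ 2 * T2.card := by
    refine loss_le hc2 (le_of_eq (card_TT ?_))
    rintro ⟨⟨a, b⟩, c⟩ ⟨⟨a', b'⟩, c'⟩ he
    simp only [Prod.mk.injEq] at he ⊢
    tauto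
  have L3 : loss B h3 c1 c2 c3 ≤ 2 * T3.card := by
    refine loss_le hc3 (le_of_eq (card_TT ?_))
    rintro ⟨⟨a, b⟩, c⟩ ⟨⟨a', b'⟩, c'⟩ he
    simp only [Prod.mk.injEq] at he ⊢
    tauto
  set X1 : Finset (ℕ × ℕ × ℕ) := (Ico 2 (h1 1 1)).image (fun i => (i, 1, 1)) with hX1
  set X2 : Finset (ℕ × ℕ × ℕ) := (Ico 2 (h2 1 1)).image (fun i => (1, i, 1)) with hX2
  set X3 : Finset (ℕ × ℕ × ℕ) := (Ico 1 (h3 1 1)).image (fun i => (1, 1, i)) with hX3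
  have C1 : X1.card = h1 1 1 - 2 := by
    rw [hX1, card_image_of_injective, Nat.card_Ico]
    intro a b he
    simpa using he
  have C2 : X2.card = h2 1 1 - 2 := by
    rw [hX2, card_image_of_injective, Nat.card_Ico]
    intro a b he
    simpa using he
  have C3 : X3.card = h3 1 1 - 1 := by
    rw [hX3, card_image_of_injective, Nat.card_Ico]
    intro a b he
    simpa using he
  -- description of the members
  have m1 : ∀ p q r, (p, q, r) ∈ T1 →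
      c2 ≤ q ∧ c3 ≤ r ∧ 1 ≤ p ∧ p < c1 ∧ p < h1 q r := by
    intro p q r hx
    obtain ⟨a, b, c, hr, hc, hck, he⟩ := mem_TT hx
    simp only [Prod.mk.injEq] at he
    obtain ⟨rfl, rfl, rfl⟩ := he
    have := cap_eq cap1 hr
    exact ⟨hr.1, hr.2.1, hc, hck, by omega⟩
  have m2 : ∀ p q r, (p, q, r) ∈ T2 →
      c1 ≤ p ∧ c3 ≤ r ∧ 1 ≤ q ∧ q < c2 ∧ p < h1 q r := by
    intro p q r hx
    obtain ⟨a, b, c, hr, hc, hck, he⟩ := mem_TT hx
    simp only [Prod.mk.injEq] at he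
    obtain ⟨rfl, rfl, rfl⟩ := he
    have := cap_eq cap2 hr
    exact ⟨hr.1, hr.2.1, hc, hck, (pp.e12 _ _ _).2 (by omega)⟩
  have m3 : ∀ p q r, (p, q, r) ∈ T3 →
      c1 ≤ p ∧ c2 ≤ q ∧ 1 ≤ r ∧ r < c3 ∧ p < h1 q r := by
    intro p q r hx
    obtain ⟨a, b, c, hr, hc, hck, he⟩ := mem_TT hx
    simp only [Prod.mk.injEq] at he
    obtain ⟨rfl, rfl, rfl⟩ := he
    have := cap_eq cap3 hr
    exact ⟨hr.1, hr.2.1, hc, hck, (pp.e13 _ _ _).2 (by omega)⟩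
  have n1 : ∀ p q r, (p, q, r) ∈ X1 → 2 ≤ p ∧ q = 1 ∧ r = 1 ∧ p < h1 q r := by
    intro p q r hx
    rw [hX1, mem_image] at hx
    obtain ⟨i, hi, he⟩ := hx
    rw [mem_Ico] at hi
    simp only [Prod.mk.injEq] at he
    obtain ⟨rfl, rfl, rfl⟩ := he
    exact ⟨hi.1, rfl, rfl, hi.2⟩
  have n2 : ∀ p q r, (p, q, r) ∈ X2 → 2 ≤ q ∧ p = 1 ∧ r = 1 ∧ p < h1 q r := by
    intro p q r hx
    rw [hX2, mem_image] at hx
    obtain ⟨i, hi, he⟩ := hx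
    rw [mem_Ico] at hi
    simp only [Prod.mk.injEq] at he
    obtain ⟨rfl, rfl, rfl⟩ := he
    exact ⟨hi.1, rfl, rfl, (pp.e12 _ _ _).2 hi.2⟩
  have n3 : ∀ p q r, (p, q, r) ∈ X3 → 1 ≤ r ∧ p = 1 ∧ q = 1 ∧ p < h1 q r := by
    intro p q r hx
    rw [hX3, mem_image] at hx
    obtain ⟨i, hi, he⟩ := hx
    rw [mem_Ico] at hi
    simp only [Prod.mk.injEq] at he
    obtain ⟨rfl, rfl, rfl⟩ := he
    exact ⟨hi.1, rfl, rfl, (pp.e13 _ _ _).2 hi.2⟩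
  -- disjointness
  have D1 : Disjoint T1 T2 := by
    rw [disjoint_left]
    rintro ⟨p, q, r⟩ ha hb
    have := m1 p q r ha
    have := m2 p q r hb
    omega
  have D2 : Disjoint (T1 ∪ T2) T3 := by
    rw [disjoint_left]
    rintro ⟨p, q, r⟩ ha hb
    have := m3 p q r hb
    rcases mem_union.1 ha with ha | ha
    · have := m1 p q r ha
      omega
    · have := m2 p q r ha
      omega
  have D3 : Disjoint X1 X2 := by
    rw [disjoint_left]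
    rintro ⟨p, q, r⟩ ha hb
    have := n1 p q r ha
    have := n2 p q r hb
    omega
  have D4 : Disjoint (X1 ∪ X2) X3 := by
    rw [disjoint_left]
    rintro ⟨p, q, r⟩ ha hb
    have := n3 p q r hb
    rcases mem_union.1 ha with ha | ha
    · have := n1 p q r ha
      omega
    · have := n2 p q r ha
      omega
  have tw : ∀ p q r, (p, q, r) ∈ (T1 ∪ T2) ∪ T3 →
      ((2 ≤ p ∧ 2 ≤ q) ∨ (2 ≤ p ∧ 2 ≤ r) ∨ (2 ≤ q ∧ 2 ≤ r)) ∧ 1 ≤ p ∧ 1 ≤ q ∧ 1 ≤ r ∧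
        p < h1 q r := by
    intro p q r ha
    rcases mem_union.1 ha with ha | ha
    · rcases mem_union.1 ha with ha | ha
      · have := m1 p q r ha
        omega
      · have := m2 p q r ha
        omega
    · have := m3 p q r ha
      omega
  have on : ∀ p q r, (p, q, r) ∈ (X1 ∪ X2) ∪ X3 →
      ¬ ((2 ≤ p ∧ 2 ≤ q) ∨ (2 ≤ p ∧ 2 ≤ r) ∨ (2 ≤ q ∧ 2 ≤ r)) ∧ 1 ≤ p ∧ 1 ≤ q ∧ 1 ≤ r ∧
        p < h1 q r := by
    intro p q r ha
    rcases mem_union.1 ha with ha | ha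
    · rcases mem_union.1 ha with ha | ha
      · have := n1 p q r ha
        omega
      · have := n2 p q r ha
        omega
    · have := n3 p q r ha
      omega
  have D5 : Disjoint ((T1 ∪ T2) ∪ T3) ((X1 ∪ X2) ∪ X3) := by
    rw [disjoint_left]
    rintro ⟨p, q, r⟩ ha hb
    exact (on p q r hb).1 (tw p q r ha).1
  have sub : ((T1 ∪ T2) ∪ T3) ∪ ((X1 ∪ X2) ∪ X3) ⊆ QQ B h1 := by
    rintro ⟨p, q, r⟩ ha
    rw [mem_QQ pp]
    rcases mem_union.1 ha with ha | ha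
    · exact (tw p q r ha).2
    · exact (on p q r ha).2
  have key := (card_le_card sub).trans (card_QQ pp)
  rw [card_union_of_disjoint D5, card_union_of_disjoint D2, card_union_of_disjoint D1,
    card_union_of_disjoint D4, card_union_of_disjoint D3, C1, C2, C3] at key
  have h21 : 1 < h2 1 1 := (pp.e12 1 1 1).1 (by omega)
  have h31 : 1 < h3 1 1 := (pp.e13 1 1 1).1 (by omega)
  omega

end Pool.Agent.Helper29.W4
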